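import Pool.Agent.H53.DL.Rat

/-!
(1) For every `k ≥ 1` and every finite colouring of the naturals there are a number `M` and a Bohr neighbourhood `B`
of `0` in the integers such that every `a ∈ ℤ ^ k` has a dilate `m a ∈ B ^ k` with `1 ≤ m ≤ M`, and for almost all
`a ∈ ℤ ^ k` (all except a set of upper Banach density zero) EVERY dilate `m a ∈ B ^ k`, `1 ≤ m ≤ M`, satisfies the
prime tuples conjecture in exact form: let `A = {0, m a_1, ..., m a_k} = {e_0 < e_1 < ...}`; for every set `G` of gaps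
`(e_t, e_(t+1))` which contains at most one pair of adjacent gaps there is a colour `i` such that `A` belongs to a
family of finite sets of integers, the members `F` of which contain `A`, satisfy the prime tuples conjecture
in exact form (every subset `F'` of `F` is, for infinitely many `N`, the exact set of the `b` in `F` or in one of the
gaps in `G` with `N + b` a prime of colour `i`) and can be extended within the family by the elements of a set of
positive upper density.

So the prime tuples conjecture is true for almost all `k`-tuples of integers after a dilation by a number `m ≤ M`,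
and (`m = 1`) for almost all `k`-tuples of elements of `B`.

(2) The case `k = 2`, `m a = (m u, m u + m v)`, `G = {0, 1}`: there is `M` such that almost all pairs `(u, v)` of
positive integers have a multiple `(m u, m v)`, `m ≤ M`, which is infinitely often a pair of consecutive gaps between
primes. In particular almost every positive rational number `v / u` is the quotient of two consecutive gaps between
primes, infinitely often.
-/

namespace Pool.Agent.H62.Old.BohrTuplesV1

open Filter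

/-- the Bohr neighbourhood of `0` given by the frequencies `α` and the radius `ρ` -/
def Bohr {J : ℕ} (α : Fin J → ℝ) (ρ : ℝ) : Set ℤ :=
  {h | ∀ i, ∃ m : ℤ, |(h : ℝ) * α i - m| < ρ}

/-- `G` contains at most one pair of adjacent numbers -/
def OnePair (G : Set ℕ) : Prop := ∀ s ∈ G, ∀ t ∈ G, s + 1 ∈ G → t + 1 ∈ G → s = t

/-- `b` is not in `A`, for some `t ∈ G` exactly `t + 1` elements of `A` are smaller than `b`, and at least one
is larger: if `e_0 < e_1 < ...` are the elements of `A`, then `b` lies strictly between `e_t` and `e_(t+1)` for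
some `t ∈ G` -/
def InGap (G : Set ℕ) (A : Finset ℤ) (b : ℤ) : Prop :=
  b ∉ A ∧ (∃ t ∈ G, (A.filter (fun x => x < b)).card = t + 1) ∧ ∃ x ∈ A, b < x

/-- every subset `F'` of `F` is, for infinitely many `N`, the set of all `b` in `F` or in a gap of `A` with
number in `G` such that `N + b` is a prime of colour `i` -/
def Exact {r : ℕ} (c : ℕ → Fin r) (i : Fin r) (G : Set ℕ) (A F : Finset ℤ) : Prop :=
  ∀ F' : Finset ℤ, F' ⊆ F → {N : ℕ | ∀ b : ℤ, (b ∈ F ∨ InGap G A b) →
    ((((N : ℤ) + b).toNat.Prime ∧ c ((N : ℤ) + b).toNat = i) ↔ b ∈ F')}.Infinite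

/-- positive upper density of a set of natural numbers -/
def PosUpperDensity (Y : Set ℕ) : Prop :=
  ∃ δ : ℝ, 0 < δ ∧ ∃ᶠ X : ℕ in atTop, δ * X ≤ ((Y ∩ Set.Iio X).ncard : ℝ)

/-- for some colour `i`, the set `A` belongs to a family of finite sets which contain `A`, have the exact
pattern property `Exact`, and can be extended within the family by the elements of a set of positive upper
density -/
def Extendable {r : ℕ} (c : ℕ → Fin r) (G : Set ℕ) (A : Finset ℤ) : Prop :=
  ∃ (i : Fin r) (𝓕 : Set (Finset ℤ)), A ∈ 𝓕 ∧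
    ∀ F ∈ 𝓕, A ⊆ F ∧ Exact c i G A F ∧ PosUpperDensity {y : ℕ | insert (y : ℤ) F ∈ 𝓕}

/-- the gap between the primes number `n` and `n + 1` (the prime number `0` is `2`) -/
noncomputable def gap (n : ℕ) : ℕ := Nat.nth Nat.Prime (n + 1) - Nat.nth Nat.Prime n

open Classical in
theorem result :
    (∀ (r k : ℕ) (c : ℕ → Fin r), 1 ≤ k → ∃ (M J : ℕ) (α : Fin J → ℝ) (ρ : ℝ), 0 < ρ ∧
      (∀ a : Fin k → ℤ, ∃ m : ℕ, 1 ≤ m ∧ m ≤ M ∧ ∀ j, (m : ℤ) * a j ∈ Bohr α ρ) ∧
      ∀ ε : ℝ, 0 < ε → ∃ X₀ : ℕ, ∀ X : ℕ, X₀ ≤ X → ∀ z : Fin k → ℤ,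
        (((Fintype.piFinset (fun j => Finset.Ioc (z j) (z j + X))).filter (fun a =>
          ¬ ∀ m : ℕ, 1 ≤ m → m ≤ M → (∀ j, (m : ℤ) * a j ∈ Bohr α ρ) → ∀ G : Set ℕ, OnePair G →
            Extendable c G (insert 0 (Finset.univ.image (fun j => (m : ℤ) * a j))))).card : ℝ) ≤
          ε * (X : ℝ) ^ k) ∧
    ∃ M : ℕ, ∀ ε : ℝ, 0 < ε → ∃ X₀ : ℕ, ∀ X : ℕ, X₀ ≤ X →
      ((((Finset.Icc 1 X) ×ˢ (Finset.Icc 1 X)).filter (fun p : ℕ × ℕ =>
        ¬ ∃ m ≤ M, {n : ℕ | gap n = m * p.1 ∧ gap (n + 1) = m * p.2}.Infinite)).card : ℝ) ≤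
        ε * (X : ℝ) ^ 2 := by
  refine ⟨fun r k c hk => ?_, ?_⟩
  · obtain ⟨M, J, α, ρ, _, hρ, h1, h2⟩ := Pool.Agent.H53.DL.dil_all c k hk
    refine ⟨M, J, α, ρ, hρ, h1, fun ε hε => ?_⟩
    obtain ⟨X₀, h⟩ := h2 ε hε
    refine ⟨X₀, fun X hX z => le_trans (Nat.cast_le.2 (Finset.card_le_card ?_)) (h X hX z)⟩
    intro a ha
    rw [Finset.mem_filter] at ha ⊢
    obtain ⟨ha1, ha2⟩ := ha
    simp only [not_forall] at ha2
    obtain ⟨m, hm1, hm2, hm3, G, hG, hG2⟩ := ha2
    exact ⟨ha1, m, hm1, hm2, hm3, G, hG, hG2⟩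
  · obtain ⟨M, H⟩ := Pool.Agent.H53.DL.rationals
    refine ⟨M, fun ε hε => ?_⟩
    obtain ⟨X₀, h⟩ := H ε hε
    refine ⟨X₀, fun X hX => le_trans (Nat.cast_le.2 (Finset.card_le_card ?_)) (h X hX)⟩
    intro p hp
    rw [Finset.mem_filter] at hp ⊢
    exact hp

end Pool.Agent.H62.Old.BohrTuplesV1
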