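import Pool.Agent.H62.SS.FinalS

set_option autoImplicit false

/-!
# The Weinstock inequality for convex domains of the sphere `S^n`, `n ≥ 3`, of diameter at most `π/2`

`Sp n` is the unit sphere `S^n` of `ℝ^(n+1)`, `sg (n+1)` its surface measure, `bs n` the `(n-1)`-dimensional Hausdorff
measure (Riemannian normalisation), `gball p R` the open geodesic ball, `sigma1` the first nonzero Steklov eigenvalue
(infimum of the Rayleigh quotients over the restrictions of `C^1` functions of `ℝ^(n+1)` with mean zero on the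
boundary), `GConvex` geodesic convexity.
-/

namespace Pool.Agent.H62.Old.SphereWeinstock

open Pool.Agent.H62.SS
open scoped RealInnerProductSpace MeasureTheory ENNReal NNReal
open MeasureTheory Set Metric
open Pool.Agent.H62.WS (E sg cst)

/-- Among the geodesically convex domains of `S^n`, `n ≥ 3`, of diameter at most `π/2` the geodesic balls, and only
they, attain the bound `σ₁(Ω) ≤ σ₁(Ω*)`, where `Ω*` is the ball of radius less than `π/2` with the same boundary
measure. -/
theorem result (n : ℕ) (hn : 3 ≤ n) (Ω : Set (Sp n)) (hΩ : IsOpen Ω) (hne : Ω.Nonempty)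
    (hc : GConvex Ω)
    (hd : ∀ p ∈ Ω, ∀ q ∈ Ω,
      InnerProductGeometry.angle (p : E (n + 1)) (q : E (n + 1)) ≤ Real.pi / 2) :
    0 < bs n (frontier Ω) ∧ bs n (frontier Ω) < ∞ ∧
    (∀ p : Sp n, bs n (frontier Ω) < bs n (frontier (gball p (Real.pi / 2)))) ∧
    (rayleigh Ω).Nonempty ∧
    ∃ R : ℝ, R ∈ Ioo 0 (Real.pi / 2) ∧
      (∀ p : Sp n, bs n (frontier (gball p R)) = bs n (frontier Ω)) ∧
      (∀ (p : Sp n) (S : ℝ), S ∈ Ioo 0 (Real.pi / 2) →
        bs n (frontier (gball p S)) = bs n (frontier Ω) → S = R) ∧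
      (∀ p : Sp n, (rayleigh (gball p R)).Nonempty ∧ 0 < sigma1 (gball p R)) ∧
      (∀ p : Sp n, sigma1 Ω ≤ sigma1 (gball p R)) ∧
      ∀ p : Sp n, (sigma1 Ω = sigma1 (gball p R) ↔ ∃ (q : Sp n) (S : ℝ), Ω = gball q S) := by
  refine weinstock_sphere hn hΩ hne hc fun p hp q hq => ?_
  have h1 := InnerProductGeometry.cos_angle (p : E (n + 1)) (q : E (n + 1))
  rw [norm_coe, norm_coe, mul_one, div_one] at h1
  rw [← h1]
  exact Real.cos_nonneg_of_neg_pi_div_two_le_of_le
    (by linarith [InnerProductGeometry.angle_nonneg (p : E (n + 1)) (q : E (n + 1)),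
      Real.pi_pos]) (hd p hp q hq)

end Pool.Agent.H62.Old.SphereWeinstock
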